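import Pool.Agent.R634.FSep.Ctbl
import Pool.Agent.R634.FSep.Neg
import Pool.Agent.R634.FSep.Sorg

/-!
# MP_1ca5ad_gt, Q1: the answer is independent of ZFC

`Question` is the statement of Q1: for every Tychonoff space `X`, if `C_p(X)` is `F`-separable
then `C_p(X)` is Frechet-Urysohn.

* The Borel conjecture (every strong measure zero set of reals is countable; consistent by Laver)
  implies `Question`: in fact every Tychonoff `X` with `F`-separable `C_p(X)` is then countable.
* `ω₁ < 𝔭` (which holds under `MA + ¬CH`) implies the negation of `Question`: `C_p(X)` for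
  the discrete space `X` of size `ℵ₁` is `F`-separable and not Frechet-Urysohn.
* (ZFC) For the Sorgenfrey line `S`, `C_p(S)` is not `F`-separable.
-/

namespace Pool.Agent.Results.MP_1ca5ad_gt.Independence

open Pool.Agent.R634.FSep

universe u

theorem result :
    (BorelConjecture → Question.{u}) ∧ (OmegaOneLtP → ¬ Question.{u}) ∧
      ¬ FSeparable (Cp Sorgenfrey) :=
  ⟨question_of_BC, not_question_of_p, sorg_not_fseparable⟩

end Pool.Agent.Results.MP_1ca5ad_gt.Independence
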